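import Pool.Agent.Lib.MP_ecd4e3_gt.NB.Fin

/-! The sponge problem of Guth in every dimension, with locally bi-Lipschitz embeddings. -/

namespace Pool.Agent.Results.MP_ecd4e3_gt.BiLipschitz

theorem result : ∀ n : ℕ, 1 ≤ n → ∃ ε : ℝ, 0 < ε ∧ ∀ U : Set (EuclideanSpace ℝ (Fin n)),
    IsOpen U → MeasureTheory.volume U ≤ ENNReal.ofReal ε →
    ∃ f : EuclideanSpace ℝ (Fin n) → EuclideanSpace ℝ (Fin n),
      Topology.IsEmbedding (U.domRestrict f) ∧ Set.MapsTo f U (Metric.closedBall 0 1) ∧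
      (∀ x ∈ U, ∃ r > 0, ∃ L : ℝ, ∀ y ∈ Metric.ball x r, ∀ z ∈ Metric.ball x r,
        dist y z ≤ dist (f y) (f z) ∧ dist (f y) (f z) ≤ L * dist y z) ∧
      ∀ (γ : ℝ → EuclideanSpace ℝ (Fin n)) (a b : ℝ), ContinuousOn γ (Set.Icc a b) →
        Set.MapsTo γ (Set.Icc a b) U →
        eVariationOn γ (Set.Icc a b) ≤ eVariationOn (f ∘ γ) (Set.Icc a b) ∧
        (BoundedVariationOn γ (Set.Icc a b) → BoundedVariationOn (f ∘ γ) (Set.Icc a b)) := by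
  intro n hn
  obtain ⟨ε, hε, h⟩ := Pool.Agent.Lib.MP_ecd4e3_gt.NB.euclid_of_fill hn
    (Pool.Agent.Lib.MP_ecd4e3_gt.NB.fill_all hn)
  refine ⟨ε, hε, fun U hU hv => ?_⟩
  obtain ⟨f, h1, h2, h3, h4, h5⟩ := h U hU hv
  obtain ⟨a, b, c⟩ := Pool.Agent.Lib.MP_ecd4e3_gt.NB.local_of_exp hU h1 h2 h4
  refine ⟨f, a, h3, fun x hx => ?_, fun γ p q k1 k2 => ⟨c γ p q k1 k2,
    Pool.Agent.Lib.MP_ecd4e3_gt.NB.rect_of_dm h5 k1 k2⟩⟩
  obtain ⟨r, hr, b⟩ := b x hx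
  obtain ⟨s, hs, L, d⟩ := Pool.Agent.Lib.MP_ecd4e3_gt.NB.local_of_dm (h5 x hx)
  have k1 := Metric.ball_subset_ball (x := x) (min_le_left r s)
  have k2 := Metric.ball_subset_ball (x := x) (min_le_right r s)
  exact ⟨min r s, lt_min hr hs, L, fun y hy z hz =>
    ⟨b y (k1 hy) z (k1 hz), d y (k2 hy) z (k2 hz)⟩⟩

end Pool.Agent.Results.MP_ecd4e3_gt.BiLipschitz
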